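import Mathlib
import Pool.Agent.H500.HC.Stm

set_option autoImplicit false
set_option linter.unusedSectionVars false

/-!
# Project HC, part D1: weights of algebraic representations of `GL_n` on the diagonal torus
-/

namespace Pool.Agent.H159.HC.Tor

open Polynomial

/-- the monomial `a ^ κ` -/
noncomputable def mon {n : ℕ} (κ : Fin n →₀ ℕ) (a : Fin n → ℂ) : ℂ := ∏ i, a i ^ κ i

theorem mon_mul {n : ℕ} (κ : Fin n →₀ ℕ) (a b : Fin n → ℂ) :
    mon κ (fun i => a i * b i) = mon κ a * mon κ b := by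
  unfold mon
  rw [← Finset.prod_mul_distrib]
  exact Finset.prod_congr rfl fun i _ => mul_pow _ _ _

theorem mon_one {n : ℕ} (κ : Fin n →₀ ℕ) : mon κ (fun _ => 1) = 1 := by
  unfold mon
  simp

/-- comparison of coefficients -/
theorem coeff_eq {n m : ℕ} (S : Finset (Fin n →₀ ℕ))
    (A A' : (Fin n →₀ ℕ) → Matrix (Fin m) (Fin m) ℂ)
    (h : ∀ a : Fin n → ℂ, (∀ i, a i ≠ 0) →
      ∑ κ ∈ S, mon κ a • A κ = ∑ κ ∈ S, mon κ a • A' κ) {κ : Fin n →₀ ℕ} (hκ : κ ∈ S) :
    A κ = A' κ := by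
  classical
  ext x y
  set p : MvPolynomial (Fin n) ℂ := ∑ κ ∈ S, MvPolynomial.monomial κ (A κ x y - A' κ x y) with hp
  have h0 : p * ∏ i, MvPolynomial.X i = 0 := by
    apply MvPolynomial.funext
    intro a
    rw [map_mul, map_zero]
    by_cases ha : ∀ i, a i ≠ 0
    · have h1 := congrFun (congrFun (h a ha) x) y
      rw [Matrix.sum_apply, Matrix.sum_apply] at h1
      simp only [Matrix.smul_apply, smul_eq_mul] at h1
      have h2 : MvPolynomial.eval a p = 0 := by
        rw [hp, map_sum]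
        simp only [MvPolynomial.eval_monomial]
        rw [Finset.sum_congr rfl (g := fun κ => mon κ a * A κ x y - mon κ a * A' κ x y)]
        · rw [Finset.sum_sub_distrib, h1, sub_self]
        · intro κ _
          unfold mon
          rw [Finsupp.prod_fintype _ _ (fun i => pow_zero _)]
          ring
      rw [h2, zero_mul]
    · push Not at ha
      obtain ⟨i, hi⟩ := ha
      have h3 : MvPolynomial.eval a (∏ i, MvPolynomial.X i : MvPolynomial (Fin n) ℂ) = 0 := by
        rw [map_prod]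
        exact Finset.prod_eq_zero (Finset.mem_univ i) (by rw [MvPolynomial.eval_X, hi])
      rw [h3, mul_zero]
  have h4 : p = 0 := by
    rcases mul_eq_zero.1 h0 with h5 | h5
    · exact h5
    · exact absurd h5 (Finset.prod_ne_zero_iff.2 fun i _ => MvPolynomial.X_ne_zero i)
  have h6 : MvPolynomial.coeff κ p = A κ x y - A' κ x y := by
    rw [hp, MvPolynomial.coeff_sum]
    simp only [MvPolynomial.coeff_monomial]
    rw [Finset.sum_ite_eq' S κ, if_pos hκ]
  rw [h4, MvPolynomial.coeff_zero] at h6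
  exact (sub_eq_zero.1 h6.symm)

/-- the determinant of `1 + (y - 1) B` for an idempotent `B` -/
theorem det_idem {m : ℕ} (B : Matrix (Fin m) (Fin m) ℂ) (hB : B * B = B) :
    ∃ r : ℕ, ∀ y : ℂ, (1 + (y - 1) • B).det = y ^ r := by
  set p : ℂ[X] := (1 + ((X : ℂ[X]) - 1) • B.map (Polynomial.C)).det with hp
  have hev : ∀ y : ℂ, p.eval y = (1 + (y - 1) • B).det := by
    intro y
    rw [hp, ← Polynomial.coe_evalRingHom, RingHom.map_det]
    congr 1
    ext i j
    simp [Matrix.one_apply, apply_ite]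
  have hm : ∀ y z : ℂ, p.eval y * p.eval z = p.eval (y * z) := by
    intro y z
    rw [hev, hev, hev, ← Matrix.det_mul]
    congr 1
    rw [add_mul, mul_add, mul_add, one_mul, mul_one, one_mul, Matrix.smul_mul, Matrix.mul_smul, hB,
      smul_smul, add_assoc, ← add_assoc ((z - 1) • B), ← add_smul, ← add_smul]
    congr 2
    ring
  have h1 : p.eval 1 = 1 := by
    rw [hev, sub_self, zero_smul, add_zero, Matrix.det_one]
  have hp0 : p ≠ 0 := by
    intro h
    rw [h, Polynomial.eval_zero] at h1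
    exact zero_ne_one h1
  obtain ⟨q, hq, hq0⟩ := Polynomial.exists_eq_pow_rootMultiplicity_mul_and_not_dvd p hp0 0
  rw [Polynomial.C_0, sub_zero] at hq hq0
  generalize p.rootMultiplicity 0 = e at hq
  have hq1 : q.degree = 0 := by
    by_contra hd
    obtain ⟨z, hz⟩ := IsAlgClosed.exists_root q hd
    by_cases hz0 : z = 0
    · rw [hz0] at hz
      exact hq0 (Polynomial.X_dvd_iff.2 (by rw [Polynomial.coeff_zero_eq_eval_zero]; exact hz))
    · have h2 := hm z z⁻¹
      rw [mul_inv_cancel₀ hz0, h1] at h2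
      have h3 : p.eval z = 0 := by
        rw [hq, Polynomial.eval_mul, hz.eq_zero, mul_zero]
      rw [h3, zero_mul] at h2
      exact zero_ne_one h2
  rw [Polynomial.eq_C_of_degree_eq_zero hq1] at hq
  refine ⟨e, fun y => ?_⟩
  have h4 := h1
  rw [hq, Polynomial.eval_mul, Polynomial.eval_pow, Polynomial.eval_X, one_pow, one_mul,
    Polynomial.eval_C] at h4
  rw [← hev, hq, Polynomial.eval_mul, Polynomial.eval_pow, Polynomial.eval_X, Polynomial.eval_C, h4,
    mul_one]

/-- the determinant of a combination of orthogonal idempotents -/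
theorem det_sum {m : ℕ} {κt : Type} [DecidableEq κt] (S : Finset κt)
    (B : κt → Matrix (Fin m) (Fin m) ℂ) (hB : ∀ κ ∈ S, ∀ l ∈ S, B κ * B l = if κ = l then B κ else 0)
    (r : κt → ℕ) (hr : ∀ κ ∈ S, ∀ y : ℂ, (1 + (y - 1) • B κ).det = y ^ r κ) (y : κt → ℂ) :
    ∀ S' : Finset κt, S' ⊆ S → (1 + ∑ κ ∈ S', (y κ - 1) • B κ).det = ∏ κ ∈ S', y κ ^ r κ := by
  intro S'
  induction S' using Finset.induction_on with
  | empty =>
    intro _
    simp
  | insert κ T hκ ih =>
    intro hS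
    have hκS : κ ∈ S := hS (Finset.mem_insert_self _ _)
    have hTS : T ⊆ S := fun x hx => hS (Finset.mem_insert_of_mem hx)
    rw [Finset.sum_insert hκ, Finset.prod_insert hκ, ← ih hTS, ← hr κ hκS, ← Matrix.det_mul]
    congr 1
    have h1 : B κ * ∑ l ∈ T, (y l - 1) • B l = 0 := by
      rw [Finset.mul_sum]
      refine Finset.sum_eq_zero fun l hl => ?_
      rw [Matrix.mul_smul, hB κ hκS l (hTS hl), if_neg, smul_zero]
      rintro rfl
      exact hκ hl
    rw [add_mul, one_mul, Matrix.smul_mul, mul_add, mul_one, h1, add_zero]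
    abel

/-- a family of multiplicities is listed by a map from `Fin m` -/
theorem exists_list {κt : Type} (S : Finset κt) (r : κt → ℕ) {m : ℕ} (h : ∑ κ ∈ S, r κ = m) :
    ∃ f : Fin m → κt, ∀ g : κt → ℂ, ∏ κ ∈ S, g κ ^ r κ = ∏ j, g (f j) := by
  classical
  have hc : Fintype.card ((κ : S) × Fin (r κ)) = Fintype.card (Fin m) := by
    rw [Fintype.card_sigma, Fintype.card_fin]
    simp only [Fintype.card_fin]
    rw [Finset.sum_coe_sort S r, h]
  obtain ⟨e⟩ := Fintype.card_eq.1 hc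
  refine ⟨fun j => ((e.symm j).1 : κt), fun g => ?_⟩
  rw [← Equiv.prod_comp e (fun j => g ((e.symm j).1 : κt))]
  simp only [Equiv.symm_apply_apply]
  rw [Fintype.prod_sigma]
  simp only [Finset.prod_const, Finset.card_univ, Fintype.card_fin]
  rw [Finset.prod_coe_sort S (fun κ => g κ ^ r κ)]

/-- the diagonal torus -/
noncomputable def diagU {n : ℕ} (a : Fin n → ℂˣ) : GL (Fin n) ℂ :=
  ⟨Matrix.diagonal fun i => (a i : ℂ), Matrix.diagonal fun i => ((a i)⁻¹ : ℂˣ), by
    rw [Matrix.diagonal_mul_diagonal]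
    simp, by
    rw [Matrix.diagonal_mul_diagonal]
    simp⟩

theorem diagU_coe {n : ℕ} (a : Fin n → ℂˣ) :
    (diagU a : Matrix (Fin n) (Fin n) ℂ) = Matrix.diagonal fun i => (a i : ℂ) := rfl

theorem diagU_mul {n : ℕ} (a b : Fin n → ℂˣ) : diagU (fun i => a i * b i) = diagU a * diagU b := by
  apply Units.ext
  rw [Units.val_mul, diagU_coe, diagU_coe, diagU_coe, Matrix.diagonal_mul_diagonal]
  rfl

theorem diagU_one {n : ℕ} : diagU (fun _ : Fin n => (1 : ℂˣ)) = 1 := by
  apply Units.ext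
  rw [diagU_coe]
  simp

/-- the restriction of an algebraic representation to the torus -/
theorem exists_coeffs {n m : ℕ} (r : GL (Fin n) ℂ →* GL (Fin m) ℂ)
    (hr : ∀ a b : Fin m, ∃ (f : MvPolynomial (Fin n × Fin n) ℂ) (k : ℕ), ∀ g : GL (Fin n) ℂ,
      (r g : Matrix (Fin m) (Fin m) ℂ) a b =
        MvPolynomial.eval (fun ij => (g : Matrix (Fin n) (Fin n) ℂ) ij.1 ij.2) f /
          (g : Matrix (Fin n) (Fin n) ℂ).det ^ k) :
    ∃ (K : ℕ) (S : Finset (Fin n →₀ ℕ)) (B : (Fin n →₀ ℕ) → Matrix (Fin m) (Fin m) ℂ),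
      ∀ a : Fin n → ℂˣ, (∏ i, (a i : ℂ)) ^ K • (r (diagU a) : Matrix (Fin m) (Fin m) ℂ) =
        ∑ κ ∈ S, mon κ (fun i => (a i : ℂ)) • B κ := by
  classical
  choose f k hf using hr
  set q : Fin m → Fin m → MvPolynomial (Fin n) ℂ := fun x y =>
    MvPolynomial.aeval (fun ij : Fin n × Fin n =>
      if ij.1 = ij.2 then (MvPolynomial.X ij.1 : MvPolynomial (Fin n) ℂ) else 0) (f x y) with hq
  have hent : ∀ (a : Fin n → ℂˣ) x y, (r (diagU a) : Matrix (Fin m) (Fin m) ℂ) x y =
      MvPolynomial.eval (fun i => (a i : ℂ)) (q x y) / (∏ i, (a i : ℂ)) ^ k x y := by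
    intro a x y
    rw [hf, diagU_coe, Matrix.det_diagonal]
    congr 1
    rw [hq]
    simp only
    rw [MvPolynomial.aeval_def, MvPolynomial.hom_eval₂]
    have h1 : (MvPolynomial.eval (fun i => (a i : ℂ))).comp
        (algebraMap ℂ (MvPolynomial (Fin n) ℂ)) = RingHom.id ℂ := by
      ext x
      simp [MvPolynomial.algebraMap_eq]
    rw [h1, MvPolynomial.eval₂_id]
    congr 1
    congr 1
    ext ij
    rw [Matrix.diagonal_apply]
    split_ifs <;> simp
  set K := ∑ x, ∑ y, k x y with hK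
  have hle : ∀ x y, k x y ≤ K := by
    intro x y
    calc k x y ≤ ∑ y, k x y :=
          Finset.single_le_sum (f := fun y => k x y) (fun _ _ => Nat.zero_le _) (Finset.mem_univ y)
      _ ≤ K := Finset.single_le_sum (f := fun x => ∑ y, k x y)
          (fun _ _ => Nat.zero_le _) (Finset.mem_univ x)
  set q' : Fin m → Fin m → MvPolynomial (Fin n) ℂ := fun x y =>
    q x y * (∏ i, MvPolynomial.X i) ^ (K - k x y) with hq'
  refine ⟨K, Finset.univ.biUnion fun x => Finset.univ.biUnion fun y => (q' x y).support,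
    fun κ => Matrix.of fun x y => (q' x y).coeff κ, fun a => ?_⟩
  ext x y
  rw [Matrix.smul_apply, hent, Matrix.sum_apply]
  simp only [Matrix.smul_apply, Matrix.of_apply, smul_eq_mul]
  have h1 : MvPolynomial.eval (fun i => (a i : ℂ)) (q' x y) =
      ∑ κ ∈ Finset.univ.biUnion fun x => Finset.univ.biUnion fun y => (q' x y).support,
        mon κ (fun i => (a i : ℂ)) * (q' x y).coeff κ := by
    rw [MvPolynomial.eval_eq']
    refine (Finset.sum_congr rfl fun κ _ => mul_comm _ _).trans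
      (Finset.sum_subset (s₁ := (q' x y).support) ?_ ?_)
    · intro κ hκ
      exact Finset.mem_biUnion.2 ⟨x, Finset.mem_univ _, Finset.mem_biUnion.2 ⟨y, Finset.mem_univ _, hκ⟩⟩
    · intro κ _ hκ
      rw [MvPolynomial.notMem_support_iff.1 hκ, mul_zero]
  rw [← h1, hq']
  simp only [map_mul, map_pow, map_prod, MvPolynomial.eval_X]
  have ht : (∏ i, (a i : ℂ)) ≠ 0 := Finset.prod_ne_zero_iff.2 fun i _ => (a i).ne_zero
  have h2 : (∏ i, (a i : ℂ)) ^ K = (∏ i, (a i : ℂ)) ^ k x y * (∏ i, (a i : ℂ)) ^ (K - k x y) := by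
    rw [← pow_add, Nat.add_sub_cancel' (hle x y)]
  rw [h2]
  field_simp

theorem main_aux {n m : ℕ} (r : GL (Fin n) ℂ →* GL (Fin m) ℂ)
    (hr : ∀ a b : Fin m, ∃ (f : MvPolynomial (Fin n × Fin n) ℂ) (k : ℕ), ∀ g : GL (Fin n) ℂ,
      (r g : Matrix (Fin m) (Fin m) ℂ) a b =
        MvPolynomial.eval (fun ij => (g : Matrix (Fin n) (Fin n) ℂ) ij.1 ij.2) f /
          (g : Matrix (Fin n) (Fin n) ℂ).det ^ k) :
    ∃ k : Fin m → Fin n → ℤ, ∀ (D : GL (Fin n) ℂ) (a : Fin n → ℂ),
      (D : Matrix (Fin n) (Fin n) ℂ) = Matrix.diagonal a → ∀ x : ℂ,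
      (1 - x • (r D : Matrix (Fin m) (Fin m) ℂ)).det = ∏ j, (1 - x * ∏ i, a i ^ k j i) := by
  classical
  obtain ⟨K, S, B, hsum⟩ := exists_coeffs r hr
  -- orthogonality
  have hmul : ∀ a b : Fin n → ℂˣ, ∑ κ ∈ S, mon κ (fun i => (a i : ℂ) * (b i : ℂ)) • B κ =
      (∑ κ ∈ S, mon κ (fun i => (a i : ℂ)) • B κ) * ∑ κ ∈ S, mon κ (fun i => (b i : ℂ)) • B κ := by
    intro a b
    have h1 := hsum (fun i => a i * b i)
    simp only [Units.val_mul] at h1
    rw [← h1, ← hsum, ← hsum, diagU_mul, map_mul, Units.val_mul, Finset.prod_mul_distrib, mul_pow,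
      Matrix.smul_mul, Matrix.mul_smul, smul_smul]
  have hB : ∀ κ ∈ S, ∀ l ∈ S, B κ * B l = if κ = l then B κ else 0 := by
    intro κ hκ l hl
    have h1 : ∀ b : Fin n → ℂ, (∀ i, b i ≠ 0) →
        mon κ b • B κ = B κ * ∑ l ∈ S, mon l b • B l := by
      intro b hb
      refine coeff_eq S (fun κ => mon κ b • B κ) (fun κ => B κ * ∑ l ∈ S, mon l b • B l) ?_ hκ
      intro a ha
      have h2 := hmul (fun i => Units.mk0 (a i) (ha i)) (fun i => Units.mk0 (b i) (hb i))
      simp only [Units.val_mk0] at h2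
      rw [Finset.sum_mul] at h2
      simp only [smul_smul]
      rw [Finset.sum_congr rfl fun κ _ => by rw [← mon_mul], h2]
      exact Finset.sum_congr rfl fun κ _ => Matrix.smul_mul _ _ _
    have h3 := coeff_eq S (fun l => if κ = l then B κ else 0) (fun l => B κ * B l) (fun b hb => by
      have h4 := h1 b hb
      rw [Finset.mul_sum] at h4
      rw [Finset.sum_congr rfl (g := fun l => mon l b • (B κ * B l)) (fun j _ => rfl)]
      rw [Finset.sum_congr rfl fun l (_ : l ∈ S) => (Matrix.mul_smul _ _ _)] at h4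
      rw [← h4]
      rw [Finset.sum_congr rfl (g := fun l => if κ = l then mon κ b • B κ else 0) fun l _ => by
        split_ifs with h
        · rw [h]
        · exact smul_zero _]
      rw [Finset.sum_ite_eq S κ, if_pos hκ]) hl
    exact h3.symm
  -- the sum of the idempotents
  have hone : ∑ κ ∈ S, B κ = 1 := by
    have h1 := hsum (fun _ => 1)
    simp only [Units.val_one, mon_one, one_smul, Finset.prod_const_one, one_pow] at h1
    rw [← h1, diagU_one, map_one, Units.val_one]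
  choose! rk hrk using fun (κ : Fin n →₀ ℕ) (hκ : κ ∈ S) => det_idem (B κ) (by
    have := hB κ hκ κ hκ
    rwa [if_pos rfl] at this)
  have hdet : ∀ y : (Fin n →₀ ℕ) → ℂ, (∑ κ ∈ S, y κ • B κ).det = ∏ κ ∈ S, y κ ^ rk κ := by
    intro y
    rw [← det_sum S B hB rk hrk y S (Finset.Subset.refl S)]
    congr 1
    simp only [sub_smul, one_smul, Finset.sum_sub_distrib]
    rw [hone]
    abel
  have hrank : ∑ κ ∈ S, rk κ = m := by
    have h1 := hdet (fun _ => 2)
    rw [← Finset.smul_sum, hone, Matrix.det_smul, Matrix.det_one, mul_one, Fintype.card_fin,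
      Finset.prod_pow_eq_pow_sum] at h1
    have h2 : (2 : ℕ) ^ m = 2 ^ ∑ κ ∈ S, rk κ := by exact_mod_cast h1
    exact (Nat.pow_right_injective (le_refl 2) h2).symm
  obtain ⟨f, hf⟩ := exists_list S rk hrank
  refine ⟨fun j i => (f j i : ℤ) - K, fun D a hD x => ?_⟩
  have ha : ∀ i, a i ≠ 0 := by
    have h1 : (D : Matrix (Fin n) (Fin n) ℂ).det ≠ 0 := by
      have := (Matrix.isUnit_iff_isUnit_det _).1 D.isUnit
      exact this.ne_zero
    rw [hD, Matrix.det_diagonal] at h1
    intro i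
    exact Finset.prod_ne_zero_iff.1 h1 i (Finset.mem_univ i)
  have hDa : D = diagU (fun i => Units.mk0 (a i) (ha i)) := by
    apply Units.ext
    rw [hD, diagU_coe]
    rfl
  have hP : (∏ i, a i) ^ K ≠ 0 := pow_ne_zero _ (Finset.prod_ne_zero_iff.2 fun i _ => ha i)
  have h1 : (r D : Matrix (Fin m) (Fin m) ℂ) =
      ∑ κ ∈ S, (((∏ i, a i) ^ K)⁻¹ * mon κ a) • B κ := by
    have h2 := hsum (fun i => Units.mk0 (a i) (ha i))
    simp only [Units.val_mk0] at h2
    rw [← hDa] at h2
    rw [← inv_smul_smul₀ hP (r D : Matrix (Fin m) (Fin m) ℂ), h2, Finset.smul_sum]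
    simp only [smul_smul]
  have h3 : (1 - x • (r D : Matrix (Fin m) (Fin m) ℂ)) =
      ∑ κ ∈ S, (1 - x * (((∏ i, a i) ^ K)⁻¹ * mon κ a)) • B κ := by
    simp only [sub_smul, one_smul, Finset.sum_sub_distrib]
    rw [hone, h1, Finset.smul_sum]
    simp only [smul_smul]
  rw [h3, hdet, hf (fun κ => 1 - x * (((∏ i, a i) ^ K)⁻¹ * mon κ a))]
  refine Finset.prod_congr rfl fun j _ => ?_
  congr 2
  unfold mon
  rw [← Finset.prod_pow, ← Finset.prod_inv_distrib, ← Finset.prod_mul_distrib]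
  refine Finset.prod_congr rfl fun i _ => ?_
  rw [zpow_sub₀ (ha i), zpow_natCast, zpow_natCast, div_eq_mul_inv, mul_comm]

/-- part D1 of project HC -/
theorem main : Pool.Agent.H500.HC.S_Tor := fun _ _ r hr => main_aux r hr

end Pool.Agent.H159.HC.Tor
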